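import Pool.Agent.H21.QH.Proof

/-!
# A finite digraph `H` such that `ℚ × H` does not pp-construct `H`

`PPConstructs (RatProd E) E` says that the product of `(ℚ, <)` with the digraph `(A, E)`
pp-constructs `(A, E)`; the definitions are in `Pool.Agent.H21.QH.Defs`.
-/

namespace Pool.Agent.Results.MP_ce9419_lc.NotConstructible

open Pool.Agent.H21.QH

/-- There is a finite digraph `H` such that `ℚ × H` does not pp-construct `H`. -/
theorem result : ∃ (A : Type) (_ : Finite A) (E : A → A → Prop),
    ¬ PPConstructs (RatProd E) E :=
  ⟨V, inferInstance, Adj, not_ppConstructs⟩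

end Pool.Agent.Results.MP_ce9419_lc.NotConstructible
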